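import Pool.Agent.H365Z.Nor.Arith
import Pool.Agent.H365Z.Nor.Defs

/-! MP_df8ac3_lc, Q1: `𝒩_{a,k} \ 𝒩_{b,k}` is `D₂(Π⁰₃)`-complete for multiplicatively independent
integers `a, b > 1` and every `k`. -/

set_option autoImplicit false

namespace Pool.Agent.Results.MP_df8ac3_lc.AFullProof

open Pool.Agent.H365Z.NorDefs

/-- `𝒩_{a,k}`: coefficient vectors `c` of the polynomials `g(x) = ∑ cᵢ xⁱ` of degree at most `k`
with `(g(n) aⁿ)` uniformly distributed modulo one -/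
def NormalVec (a k : ℕ) : Set (Fin (k + 1) → ℝ) :=
  {c | IsUD fun n => (∑ i : Fin (k + 1), c i * (n : ℝ) ^ (i : ℕ)) * (a : ℝ) ^ n}

theorem result (a b k : ℕ) (ha : 1 < a) (hb : 1 < b)
    (hab : ∀ m n : ℕ, 0 < m → 0 < n → a ^ m ≠ b ^ n) :
    IsD2 (NormalVec a k \ NormalVec b k) ∧ ¬ IsD2 (NormalVec a k \ NormalVec b k)ᶜ := by
  have h1 : ∀ a : ℕ, IsPi03 (NormalVec a k) := fun a =>
    H365Z.Nor.Pi3.ud (g := fun (c : Fin (k + 1) → ℝ) n =>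
      (∑ i : Fin (k + 1), c i * (n : ℝ) ^ (i : ℕ)) * (a : ℝ) ^ n) fun n => by fun_prop
  have h2 : ∀ (a : ℕ) (ξ : ℝ), (Pi.single 0 ξ : Fin (k + 1) → ℝ) ∈ NormalVec a k ↔
      H365Z.Nor.UD fun n => ξ * (a : ℝ) ^ n := by
    intro a ξ
    have e : ∀ n : ℕ, ∑ i : Fin (k + 1), (Pi.single 0 ξ : Fin (k + 1) → ℝ) i *
        (n : ℝ) ^ (i : ℕ) = ξ := by
      intro n
      rw [Finset.sum_eq_single 0]
      · simp
      · intro b _ hb
        simp [hb]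
      · simp
    simp only [NormalVec, Set.mem_setOf_eq, e]
    rfl
  have h3 : ∀ a : ℕ, 1 < a → 1 < |(a : ℝ)| := fun a ha => by
    rw [Nat.abs_cast]; exact_mod_cast ha
  exact ⟨⟨_, _, h1 a, h1 b, rfl⟩, H365Z.Nor.diff_hard (h3 a ha) (h3 b hb)
    (H365Z.Nor.ind_of_indep ha hb hab) (continuous_single (A := fun _ : Fin (k + 1) => ℝ) 0)
    (h2 a) (h2 b)⟩

end Pool.Agent.Results.MP_df8ac3_lc.AFullProof
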